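import Pool.Agent.L0h5.TV.Stm

/-!
# Project TV, V5: the average over the window (helper71)
-/

set_option autoImplicit false

namespace Pool.Agent.L0h71.TV

open Finset Pool.Agent.W262.RK Pool.Agent.L0h5.TH Pool.Agent.L0h5.MR
open Pool.Agent.L0h5.TF hiding oo QF
open Pool.Agent.L0h5.AG (gg ps)
open Pool.Agent.L0h5.TT (vvk xxk nd_xv psi)
open Pool.Agent.L0h5.TU Pool.Agent.L0h5.TV

lemma Lj_self {J : Type} {k B : ℕ} (q : J → Fin 3) (i : Ij J k B) : Lj q i i = false := by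
  unfold Lj Ll
  rw [decide_eq_false_iff_not, Nat.not_odd_iff_even]
  exact (lbj q i).2

lemma x4_eq (o : Bool) {p : ℕ} (hp : p.Prime) (h2 : 2 < p) :
    x4 o p = if (decide (p % 4 = 3) && o) = true then -1 else 1 := by
  unfold x4
  cases o
  · simp
  · simp only [if_true, Bool.and_true, decide_eq_true_eq]
    have hodd : p % 2 = 1 := by
      rcases hp.eq_two_or_odd with h | h
      · omega
      · exact h
    by_cases h3 : p % 4 = 3
    · rw [if_pos h3, ZMod.χ₄_nat_three_mod_four h3]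
      norm_num
    · have h1 : p % 4 = 1 := by omega
      rw [if_neg h3, ZMod.χ₄_nat_one_mod_four h1]
      norm_num

/-- **V5** -/
theorem s3_avg (hSW : S3_SW) (hAG : S3_AG) (hEXP : S2_EXP) (hLAM : S3_LAM) (hCMB : S3_CMB) :
    S3_AVG := by
  classical
  intro J _ _ _ q evn ns hen hcrit k c hk
  obtain ⟨δ0, hδ0, hδ2, hC⟩ := hCMB J k 1 q ns hk one_pos hcrit
  obtain ⟨z0, hz0⟩ := hAG (Ij J k 1) J (fun i => i.1) (fun _ => (1 / 2 : ℝ) ^ k / ((1 : ℕ) : ℝ))
    (Lj q) (fun i => ns i.1 && dp i.2.1 i.2.2.1) c (Fintype.card J) δ0 (fun _ => by positivity)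
    (Lj_self q) (Nat.cast_nonneg _) hδ0 (by linarith) (fun U hU => hC δ0 hδ0 le_rfl U hU)
  refine ⟨δ0, hδ0, hδ2, z0 + 2 * c + 8, by omega, fun z hz kap R hR => ?_⟩
  have hpc : ∀ p : ℕ, z < p → (0 : ℝ) < (p : ℝ) - c := by
    intro p hp
    have : (2 * c + 3 : ℝ) ≤ p := by exact_mod_cast (by omega : 2 * c + 3 ≤ p)
    have hc0 : (0 : ℝ) ≤ c := Nat.cast_nonneg c
    linarith
  obtain ⟨w, hw⟩ : ∃ w : J → (Fin k → Bool) → (Fin k → Bool) → ℕ → ℝ,
      w = fun j b x p => (1 / 2 : ℝ) ^ k *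
        (if ((ns j && decide (p % 4 = 3)) && dp b x) = true then -1 else 1) := ⟨_, rfl⟩
  have hwx : ∀ j b x p, p.Prime → 2 < p →
      w j b x p = (1 / 2 : ℝ) ^ k * x4 (ns j && dp b x) p := by
    intro j b x p hp h2
    rw [hw, x4_eq _ hp h2]
    have : (ns j && decide (p % 4 = 3) && dp b x) = (decide (p % 4 = 3) && (ns j && dp b x)) := by
      cases ns j <;> cases decide (p % 4 = 3) <;> cases dp b x <;> rfl
    simp only [this]
  have hwa : ∀ j b x p, |w j b x p| = (1 / 2 : ℝ) ^ k := by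
    intro j b x p
    rw [hw]
    simp only []
    rw [abs_mul, abs_of_pos (by positivity : (0 : ℝ) < (1 / 2) ^ k)]
    split_ifs <;> simp
  have hk2 : ((1 : ℝ) / 2) ^ k ≤ 1 / 2 := by
    calc ((1 : ℝ) / 2) ^ k ≤ (1 / 2) ^ 1 := pow_le_pow_of_le_one (by norm_num) (by norm_num) hk
      _ = 1 / 2 := pow_one _
  have hk1 : ((1 : ℝ) / 2) ^ k ≤ 1 := by linarith
  have hkp : (0 : ℝ) < (1 / 2) ^ k := by positivity
  have hwj : ∀ i : Ij J k 1, ∀ p, wj w c i p = w i.1 i.2.1 i.2.2.1 p / ((p : ℝ) - c) := by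
    intro i p
    unfold wj
    rw [Nat.cast_one, one_mul]
  -- Mertens
  obtain ⟨C1, hC1⟩ := Pool.Agent.Helper256.KM.mertens_inv
  obtain ⟨C2, hC2⟩ := two_sided (fun _ => 1) (fun _ => zero_le_one) 1 c z (by omega)
    (fun _ _ _ => le_rfl) 1 C1 (fun y hy => by
      have := hC1 y hy
      rw [one_mul]
      exact this)
  obtain ⟨C, hC'⟩ := hz0 z (by omega) (wj w c) |C2|
    (fun i p hp hpz => by
      have h2 := hpc p hpz
      rw [hwj, abs_div, abs_of_pos h2, hwa]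
      exact div_le_div_of_nonneg_right hk2 h2.le)
    (fun i y hy => by
      have h1 : ∑ p ∈ PS z y, |wj w c i p| = (1 / 2 : ℝ) ^ k * ∑ p ∈ PS z y, 1 / ((p : ℝ) - c) := by
        rw [mul_sum]
        refine sum_congr rfl fun p hp => ?_
        have h2 := hpc p (mem_PS.1 hp).1.1
        rw [hwj, abs_div, abs_of_pos h2, hwa]
        ring
      rw [h1, Nat.cast_one, div_one]
      have h3 := (abs_le.1 (hC2 y hy)).2
      have h4 := le_abs_self C2
      have h5 := abs_nonneg C2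
      have h6 : ∑ p ∈ PS z y, 1 / ((p : ℝ) - c) ≤ Real.log (Real.log y) + |C2| := by linarith
      have h7 := mul_le_mul_of_nonneg_left h6 hkp.le
      nlinarith)
    (fun i A η hη => by
      obtain ⟨C3, hC3⟩ := hSW c z (ns i.1 && dp i.2.1 i.2.2.1) (by omega) (by omega) A η hη
      refine ⟨C3, fun y hy r hr hrp hrl τ hτ => ?_⟩
      have h1 := hC3 y hy r hr hrp hrl τ hτ
      have h2 : ∑ p ∈ PS z y, wj w c i p * ps r τ p = (1 / 2 : ℝ) ^ k *
          ∑ p ∈ PS z y, x4 (ns i.1 && dp i.2.1 i.2.2.1) p / ((p : ℝ) - c) * ps r τ p := by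
        rw [mul_sum]
        refine sum_congr rfl fun p hp => ?_
        obtain ⟨⟨h3, -⟩, h4⟩ := mem_PS.1 hp
        rw [hwj, hwx _ _ _ _ h4 (by omega)]
        ring
      rw [h2, abs_mul, abs_of_pos hkp]
      exact (mul_le_of_le_one_left (abs_nonneg _) hk1).trans h1)
  refine ⟨|C|, abs_nonneg _, fun y hy => ?_⟩
  obtain ⟨F, hF⟩ : ∃ F : (J → ℕ) → ℝ,
      F = fun n => if WinJ δ0 (Pool.Agent.L0h5.TT.LL y) n then 1 else 0 := ⟨_, rfl⟩
  have h1 := hC' y hy F (fun n => by rw [hF]; simp only; split_ifs <;> simp)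
    (fun n hn => by
      by_contra hcon
      rw [hF] at hn
      simp only [if_neg hcon] at hn
      exact hn rfl)
  rw [← hEXP J k 1 c z y q (lamR q evn kap R) w one_pos (fun j p hp hpz v h => by
    obtain ⟨hc1, hs⟩ := hR p hp hpz j
    obtain ⟨r, hr⟩ := card_eq_one.1 hc1
    have hsr := hs r (by rw [hr]; exact mem_singleton_self r)
    unfold lamR
    rw [hr, sum_singleton, hLAM k (q j) (evn j) (kap j r) p (by
      rw [hsr, ← Bool.and_assoc, hen j, Bool.false_and]) v h, hsr, hw]) F] at h1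
  have h2 : ∑ s ∈ (Tup J z y).filter (fun s => WinJ δ0 (Pool.Agent.L0h5.TT.LL y) (omJ s)),
      GT (lamR (k := k) q evn kap R) s * ∏ j, gw 1 c (s j) =
      ∑ s ∈ Tup J z y, F (omJ s) * (GT (lamR (k := k) q evn kap R) s * ∏ j, gw 1 c (s j)) := by
    rw [sum_filter]
    refine sum_congr rfl fun s _ => ?_
    rw [hF]
    simp only
    split_ifs <;> simp
  rw [h2]
  have h3 : 0 ≤ (Real.log y) ^ (Fintype.card J) := pow_nonneg (Real.log_natCast_nonneg y) _
  rw [Real.rpow_natCast] at h1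
  exact (le_abs_self _).trans (h1.trans (mul_le_mul_of_nonneg_right (le_abs_self C) h3))

end Pool.Agent.L0h71.TV
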