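import Pool.Agent.L0h5.TV.Stm
import Pool.Agent.L0h90.TU.Cmb

/-!
# Project TV, V3: the unlinked sets, with the case of equality (helper71)
-/

set_option autoImplicit false

namespace Pool.Agent.L0h71.TV

open Finset Pool.Agent.L0h5.TT Pool.Agent.L0h5.TU Pool.Agent.L0h5.TF Pool.Agent.L0h5.TV
open Pool.Agent.L0h71.TT (bp ortho_card psi_inv nd_xv')
open Pool.Agent.L0h90.TU (bx link weights VV AA AA_nonneg AA_le' AA_insert)

section form

variable {k : ℕ}

/-- the scalar product modulo 2 -/
def dz (b : Fin k → Bool) (X : Fin k → ZMod 2) : ZMod 2 := ∑ m, if b m = true then X m else 0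

/-- the coordinates as elements of `ZMod 2` -/
def tz (x : Fin k → Bool) : Fin k → ZMod 2 := fun m => if x m = true then 1 else 0

/-- the sum modulo 2 -/
def xo (b b' : Fin k → Bool) : Fin k → Bool := fun m => xor (b m) (b' m)

lemma dz_xo (b b' : Fin k → Bool) (X : Fin k → ZMod 2) : dz (xo b b') X = dz b X + dz b' X := by
  unfold dz xo
  rw [← Finset.sum_add_distrib]
  refine Finset.sum_congr rfl fun m _ => ?_
  have h : ∀ (u v : Bool) (t : ZMod 2), (if xor u v = true then t else 0) =
      (if u = true then t else 0) + (if v = true then t else 0) := by decide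
  exact h _ _ _

lemma dz_tz_xo (b x x' : Fin k → Bool) : dz b (tz (xo x x')) = dz b (tz x) + dz b (tz x') := by
  unfold dz xo tz
  rw [← Finset.sum_add_distrib]
  refine Finset.sum_congr rfl fun m _ => ?_
  have h : ∀ (u v w : Bool), (if w = true then (if xor u v = true then (1 : ZMod 2) else 0) else 0) =
      (if w = true then (if u = true then (1 : ZMod 2) else 0) else 0) +
      (if w = true then (if v = true then (1 : ZMod 2) else 0) else 0) := by decide
  exact h _ _ _

lemma cast_card (b x : Fin k → Bool) :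
    (((univ.filter fun j => (b j && x j) = true).card : ℕ) : ZMod 2) = dz b (tz x) := by
  unfold dz tz
  rw [Finset.card_filter]
  push_cast
  refine Finset.sum_congr rfl fun m _ => ?_
  have h : ∀ (u v : Bool), (if (u && v) = true then (1 : ZMod 2) else 0) =
      (if u = true then (if v = true then (1 : ZMod 2) else 0) else 0) := by decide
  exact h _ _

lemma bp_cast (v w : (Fin k → Bool) × (Fin k → Bool)) :
    ((bp v w : ℕ) : ZMod 2) = dz v.1 (tz w.2) + dz w.1 (tz v.2) := by
  unfold bp
  push_cast
  rw [cast_card, cast_card]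

lemma even_bp (v w : (Fin k → Bool) × (Fin k → Bool)) :
    Even (bp v w) ↔ dz v.1 (tz w.2) + dz w.1 (tz v.2) = 0 := by
  rw [← bp_cast, ZMod.natCast_eq_zero_iff_even]

lemma even_bp_comm (v w : (Fin k → Bool) × (Fin k → Bool)) : Even (bp v w) ↔ Even (bp w v) := by
  rw [even_bp, even_bp, add_comm]

lemma perp {W W' : Finset ((Fin k → Bool) × (Fin k → Bool))} (h : ∀ a ∈ W, ∀ b ∈ W', Even (bp a b))
    (hc : W.card * W'.card = 4 ^ k) {v : (Fin k → Bool) × (Fin k → Bool)}
    (hv : ∀ w ∈ W, Even (bp w v)) : v ∈ W' := by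
  by_contra hn
  have h1 := ortho_card W (insert v W') (by
    intro a ha b hb
    rcases mem_insert.mp hb with rfl | hb
    · exact hv a ha
    · exact h a ha b hb)
  rw [card_insert_of_notMem hn, mul_add, mul_one, hc] at h1
  have h2 : 0 < W.card := by
    rcases Nat.eq_zero_or_pos W.card with h0 | h0
    · rw [h0, zero_mul] at hc
      have : 0 < 4 ^ k := by positivity
      omega
    · exact h0
  omega

/-- a large subspace is not twisted -/
lemma twist {W W' : Finset ((Fin k → Bool) × (Fin k → Bool))}
    (h : ∀ a ∈ W, ∀ b ∈ W', Even (bp a b)) (hc : W.card * W'.card = 4 ^ k) (hW : 2 ^ k < W.card)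
    (X : Fin k → ZMod 2) : ∃ v ∈ W, dz v.1 X ≠ dz v.1 (tz v.2) := by
  by_contra hcon
  push Not at hcon
  have h' : ∀ a ∈ W', ∀ b ∈ W, Even (bp a b) := fun a ha b hb => (even_bp_comm _ _).2 (h b hb a ha)
  have hcl : ∀ v ∈ W, ∀ w ∈ W, (xo v.1 w.1, xo v.2 w.2) ∈ W := by
    intro v hv w hw
    refine perp h' (by rw [mul_comm]; exact hc) ?_
    intro u hu
    have h1 := (even_bp _ _).1 (h' u hu v hv)
    have h2 := (even_bp _ _).1 (h' u hu w hw)
    rw [even_bp]
    simp only []
    rw [dz_xo, dz_tz_xo]
    linear_combination h1 + h2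
  have h3 := ortho_card W W (by
    intro v hv w hw
    rw [even_bp]
    have h1 := hcon _ (hcl v hv w hw)
    simp only [] at h1
    rw [dz_xo, dz_xo, dz_tz_xo, dz_tz_xo, hcon v hv, hcon w hw] at h1
    linear_combination -h1)
  have h4 : (2 : ℕ) ^ k * 2 ^ k = 4 ^ k := by
    rw [← mul_pow]; norm_num
  have h5 := Nat.mul_lt_mul'' hW hW
  rw [h4] at h5
  omega

end form

section main

variable {J : Type} [Fintype J] [DecidableEq J] {k B : ℕ} (q : J → Fin 3)
  (U : Finset (Ij J k B))

/-- the exponents of the types -/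
noncomputable abbrev A (j : J) : ℝ := AA (fun _ => false) U j

omit [Fintype J] [DecidableEq J] in
lemma ej_false (i : Ij J k B) : ej (fun _ => false) i = (1 / 2 : ℝ) ^ k / B := by
  simp [ej, wK]

omit [Fintype J] in
lemma A_le (hB : 0 < B) (j : J) : A U j ≤ ((VV q U (q j)).card : ℝ) / 2 ^ k := by
  have := AA_le' q (fun _ => false) U hB j
  simpa using this

omit [Fintype J] in
lemma A_card (j : J) : A U j = ((U.filter fun i => i.1 = j).card : ℝ) * ((1 / 2 : ℝ) ^ k / B) := by
  unfold A AA
  rw [Finset.sum_congr rfl fun i _ => ej_false i, Finset.sum_const, nsmul_eq_mul]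

omit [Fintype J] [DecidableEq J] in
lemma VV_orth (hU : ∀ i ∈ U, ∀ j ∈ U, Lj q i j = Lj q j i) {a a' : Fin 3} (haa : a ≠ a') :
    ∀ v ∈ VV q U a, ∀ w ∈ VV q U a', Even (bp v w) := by
  intro v hv w hw
  obtain ⟨i, hi, rfl⟩ := mem_image.mp hv
  obtain ⟨i', hi', rfl⟩ := mem_image.mp hw
  rw [mem_filter] at hi hi'
  rcases (link q i i').mp (hU i hi.1 i' hi'.1) with h | h
  · exact absurd (hi.2.symm.trans (h.trans hi'.2)) haa
  · exact h

omit [Fintype J] [DecidableEq J] in
lemma VV_mul (hU : ∀ i ∈ U, ∀ j ∈ U, Lj q i j = Lj q j i) {a a' : Fin 3} (haa : a ≠ a') :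
    ((VV q U a).card : ℝ) / 2 ^ k * (((VV q U a').card : ℝ) / 2 ^ k) ≤ 1 := by
  have h2 : ((VV q U a).card : ℝ) * ((VV q U a').card : ℝ) ≤ 4 ^ k := by
    exact_mod_cast ortho_card _ _ (VV_orth q U hU haa)
  rw [div_mul_div_comm, ← mul_pow, div_le_one (by positivity)]
  norm_num
  exact h2

omit [Fintype J] in
/-- if the exponent is maximal, all the copies are there -/
lemma full (hB : 0 < B) {j : J} (h : A U j = ((VV q U (q j)).card : ℝ) / 2 ^ k)
    {v : (Fin k → Bool) × (Fin k → Bool)} (hv : v ∈ VV q U (q j)) (c : Fin B) :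
    (j, v.1, v.2, c) ∈ U := by
  have hBR : (0 : ℝ) < B := by exact_mod_cast hB
  rw [A_card, one_div, inv_pow] at h
  have h1 : ((U.filter fun i => i.1 = j).card : ℝ) = ((VV q U (q j)).card : ℝ) * B := by
    have h2k : (0 : ℝ) < 2 ^ k := by positivity
    field_simp at h
    linarith
  have h2 : (U.filter fun i => i.1 = j).card = (VV q U (q j)).card * B := by exact_mod_cast h1
  set f : Ij J k B → ((Fin k → Bool) × (Fin k → Bool)) × Fin B := fun i => (bx i, i.2.2.2) with hf
  have hinj : Set.InjOn f (U.filter fun i => i.1 = j : Finset (Ij J k B)) := by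
    intro i hi i' hi' h
    rw [mem_coe, mem_filter] at hi hi'
    obtain ⟨i1, i2, i3, i4⟩ := i
    obtain ⟨j1, j2, j3, j4⟩ := i'
    simp only [hf, bx, Prod.mk.injEq] at h hi hi' ⊢
    exact ⟨hi.2.trans hi'.2.symm, h.1.1, h.1.2, h.2⟩
  have h3 : (U.filter fun i => i.1 = j).image f = VV q U (q j) ×ˢ (univ : Finset (Fin B)) := by
    apply Finset.eq_of_subset_of_card_le
    · intro p hp
      obtain ⟨i, hi, rfl⟩ := mem_image.mp hp
      rw [mem_filter] at hi
      rw [mem_product]
      exact ⟨mem_image.mpr ⟨i, mem_filter.mpr ⟨hi.1, by rw [hi.2]⟩, rfl⟩, mem_univ _⟩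
    · rw [card_image_of_injOn hinj, card_product, Finset.card_univ, Fintype.card_fin, h2]
  have h4 : (v, c) ∈ (U.filter fun i => i.1 = j).image f := by
    rw [h3, mem_product]
    exact ⟨hv, mem_univ _⟩
  obtain ⟨i, hi, hic⟩ := mem_image.mp h4
  rw [mem_filter] at hi
  have h5 : i = (j, v.1, v.2, c) := by
    obtain ⟨i1, i2, i3, i4⟩ := i
    simp only [hf, bx, Prod.mk.injEq] at hic hi ⊢
    exact ⟨hi.2, by rw [← hic.1], by rw [← hic.1], hic.2⟩
  rw [← h5]
  exact hi.1

end main

/-- **V3** -/
theorem s3_cmb : S3_CMB := by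
  intro J _ _ _ k B q ns hk hB hC
  have hBR : (0 : ℝ) < B := by exact_mod_cast hB
  have hJ : 0 < Fintype.card J := Fintype.card_pos
  have hJR : (0 : ℝ) < Fintype.card J := by exact_mod_cast hJ
  have hd : ∀ U : Finset (Ij J k B), ∃ d : ℝ, 0 < d ∧ (∏ j, A U j < 1 →
      ∀ δ, 0 < δ → δ ≤ d → ∃ ρ : J → ℝ, (∀ a, 0 < ρ a) ∧
        ∑ a, A U a * ρ a - ∑ a, psi δ (ρ a) < Fintype.card J) := by
    intro U
    by_cases h : ∏ j, A U j < 1
    · obtain ⟨d, h1, h2⟩ := weights (A U) (AA_nonneg _ U) h
      exact ⟨d, h1, fun _ => h2⟩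
    · exact ⟨1, one_pos, fun h' => absurd h' h⟩
  choose d hd0 hd1 using hd
  have hne : (univ : Finset (Finset (Ij J k B))).Nonempty := ⟨∅, mem_univ _⟩
  set δ1 : ℝ := 1 / (2 * (B * Fintype.card J * 8 ^ k)) with hδ1
  have hδ1p : 0 < δ1 := by positivity
  refine ⟨min (1 / 2) (min δ1 (univ.inf' hne d)), lt_min (by norm_num) (lt_min hδ1p ?_),
    min_le_left _ _, ?_⟩
  · rw [Finset.lt_inf'_iff]
    exact fun U _ => hd0 U
  intro δ hδ hδ0 U hU
  have hsum : ∀ ρ : J → ℝ, ∑ i ∈ U, (1 / 2 : ℝ) ^ k / B * ρ i.1 = ∑ j, A U j * ρ j := by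
    intro ρ
    rw [← Finset.sum_fiberwise_of_maps_to (s := U) (t := univ) (g := fun i => i.1)
      (fun i _ => mem_univ _)]
    apply Finset.sum_congr rfl
    intro j _
    rw [A, AA, Finset.sum_mul]
    exact Finset.sum_congr rfl fun i hi => by rw [(mem_filter.mp hi).2, ej_false]
  by_cases hp : ∏ j, A U j < 1
  · right; left
    obtain ⟨ρ, hρ, hlt⟩ := hd1 U hp δ hδ
      (hδ0.trans ((min_le_right _ _).trans ((min_le_right _ _).trans
        (Finset.inf'_le _ (mem_univ U)))))
    refine ⟨ρ, hρ, ?_⟩
    rw [hsum]
    exact hlt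
  push Not at hp
  have hA0 : ∀ j, 0 < A U j := by
    intro j
    refine lt_of_le_of_ne (AA_nonneg _ U j) fun h0 => ?_
    rw [Finset.prod_eq_zero (mem_univ j) h0.symm] at hp
    linarith
  set s : Fin 3 → ℝ := fun a => ((VV q U a).card : ℝ) / 2 ^ k with hs
  have hAs : ∀ j, A U j ≤ s (q j) := fun j => A_le q U hB j
  have hss : ∀ {a a' : Fin 3}, a ≠ a' → s a * s a' ≤ 1 := fun h => VV_mul q U hU h
  by_cases h1 : ∀ j, s (q j) ≤ 1
  · -- the first case
    have hA1 : ∀ j, A U j = 1 := by
      intro j
      by_contra hj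
      have hlt : A U j < 1 := lt_of_le_of_ne ((hAs j).trans (h1 j)) hj
      have h3 := Finset.prod_lt_prod (s := univ) (f := A U) (g := fun _ => (1 : ℝ))
        (fun i _ => hA0 i) (fun i _ => (hAs i).trans (h1 i)) ⟨j, mem_univ j, hlt⟩
      rw [Finset.prod_const_one] at h3
      linarith
    left
    constructor
    · have h2 := hsum (fun _ => 1)
      simp only [mul_one, hA1] at h2
      rw [h2]
      simp
    · intro i hi
      by_contra hcon
      push Not at hcon
      have hun : ∀ a ∈ insert i U, ∀ b ∈ insert i U, Lj q a b = Lj q b a := by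
        intro a ha b hb
        rcases mem_insert.mp ha with ha' | ha'
        · rcases mem_insert.mp hb with hb' | hb'
          · rw [ha', hb']
          · rw [ha']; exact (hcon b hb').symm
        · rcases mem_insert.mp hb with hb' | hb'
          · rw [hb']; exact hcon a ha'
          · exact hU a ha' b hb'
      have hpos : 0 < (1 / 2 : ℝ) ^ k / B := by positivity
      -- another class
      obtain ⟨j', hj'⟩ : ∃ j', q j' ≠ q i.1 := by
        have hPpos : 0 < (univ.filter fun j => q j = q i.1).card :=
          Finset.card_pos.2 ⟨i.1, by simp⟩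
        have hBpos : 0 < (univ.filter fun j => q j ≠ q i.1).card := by
          rcases hC (q i.1) ⟨i.1, rfl⟩ with h | ⟨h, -⟩ <;> omega
        obtain ⟨j', hj'⟩ := Finset.card_pos.1 hBpos
        exact ⟨j', (mem_filter.mp hj').2⟩
      have k1 := A_le q (insert i U) hB i.1
      have k2 := A_le q (insert i U) hB j'
      have e1 : A (insert i U) i.1 = 1 + (1 / 2 : ℝ) ^ k / B := by
        have := AA_insert (fun _ => false) U i hi i.1
        rw [if_pos rfl, ej_false] at this
        rw [A, this, ← A, hA1]
      have e2 : A (insert i U) j' = 1 := by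
        have := AA_insert (fun _ => false) U i hi j'
        rw [if_neg (fun h => hj' (by rw [← h])), add_zero] at this
        rw [A, this, ← A, hA1]
      have k3 := VV_mul q (insert i U) hun hj'
      rw [e1] at k1
      rw [e2] at k2
      nlinarith
  · -- the second case
    push Not at h1
    obtain ⟨j0, hj0⟩ := h1
    set a := q j0 with ha
    set S := s a with hS
    have hS0 : 0 < S := by linarith
    have hle : ∀ j, A U j ≤ if q j = a then S else 1 / S := by
      intro j
      by_cases hq : q j = a
      · rw [if_pos hq, hS, ← hq]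
        exact hAs j
      · rw [if_neg hq, le_div_iff₀ hS0]
        exact (mul_le_mul_of_nonneg_right (hAs j) hS0.le).trans (hss hq)
    have hprod : ∏ j : J, (if q j = a then S else 1 / S) =
        S ^ (univ.filter fun j => q j = a).card * (1 / S) ^ (univ.filter fun j => q j ≠ a).card := by
      rw [Finset.prod_ite, Finset.prod_const, Finset.prod_const]
    have hSS : ∀ n : ℕ, S ^ n * (1 / S) ^ n = 1 := by
      intro n
      rw [← mul_pow, mul_one_div_cancel hS0.ne', one_pow]
    have hup : ∏ j, A U j ≤ ∏ j : J, (if q j = a then S else 1 / S) :=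
      Finset.prod_le_prod (fun j _ => (hA0 j).le) fun j _ => hle j
    rcases hC a ⟨j0, rfl⟩ with h | ⟨hPB, jn, hjn, hns⟩
    · exfalso
      obtain ⟨m, hm⟩ := Nat.exists_eq_add_of_lt h
      rw [hprod, hm, add_assoc, pow_add, ← mul_assoc, hSS, one_mul] at hup
      have h3 : (1 / S) ^ (m + 1) < 1 := pow_lt_one₀ (by positivity)
        (by rw [div_lt_one hS0]; exact hj0) (by omega)
      linarith
    have hone : ∏ j : J, (if q j = a then S else 1 / S) = 1 := by
      rw [hprod, ← hPB, hSS]
    have heq : ∀ j, A U j = if q j = a then S else 1 / S := by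
      intro j
      by_contra hj
      have hlt := lt_of_le_of_ne (hle j) hj
      have h3 := Finset.prod_lt_prod (s := univ) (f := A U)
        (g := fun j => if q j = a then S else 1 / S)
        (fun i _ => hA0 i) (fun i _ => hle i) ⟨j, mem_univ j, hlt⟩
      rw [hone] at h3
      linarith
    have hAa : ∀ j, q j = a → A U j = s (q j) := by
      intro j hj
      rw [heq, if_pos hj, hj]
    have hAb : ∀ j, q j ≠ a → A U j = s (q j) ∧ s (q j) = 1 / S := by
      intro j hj
      have k1 := hAs j
      have k2 : s (q j) ≤ 1 / S := by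
        rw [le_div_iff₀ hS0]
        exact hss hj
      have k3 := heq j
      rw [if_neg hj] at k3
      constructor <;> linarith
    have hAll : ∀ j, A U j = s (q j) := by
      intro j
      by_cases hj : q j = a
      · exact hAa j hj
      · exact (hAb j hj).1
    -- the cardinalities
    have h2k : (0 : ℝ) < 2 ^ k := by positivity
    have hcard : ∀ j, q j ≠ a → (VV q U a).card * (VV q U (q j)).card = 4 ^ k := by
      intro j hj
      have k1 := (hAb j hj).2
      have k2 : S * s (q j) = 1 := by rw [k1]; field_simp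
      rw [hS, hs] at k2
      simp only [] at k2
      rw [div_mul_div_comm, ← mul_pow, div_eq_one_iff_eq (by positivity)] at k2
      have k3 : ((VV q U a).card : ℝ) * ((VV q U (q j)).card : ℝ) = 4 ^ k := by
        rw [k2]; norm_num
      exact_mod_cast k3
    have hWbig : 2 ^ k < (VV q U a).card := by
      have k1 : 1 < ((VV q U a).card : ℝ) / 2 ^ k := hj0
      rw [one_lt_div h2k] at k1
      exact_mod_cast k1
    have hSle : S ≤ 2 ^ k := by
      have k1 : (VV q U a).card ≤ 4 ^ k := by
        have h3 := Finset.card_le_univ (VV q U a)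
        have h4 : Fintype.card ((Fin k → Bool) × (Fin k → Bool)) = 4 ^ k := by
          rw [Fintype.card_prod, Fintype.card_fun, Fintype.card_bool, Fintype.card_fin, ← mul_pow]
          norm_num
        rw [h4] at h3
        exact h3
      have k2 : ((VV q U a).card : ℝ) ≤ 4 ^ k := by exact_mod_cast k1
      show ((VV q U a).card : ℝ) / 2 ^ k ≤ 2 ^ k
      rw [div_le_iff₀ h2k, ← mul_pow]
      norm_num
      exact k2
    -- another class
    obtain ⟨j', hj'⟩ : ∃ j', q j' ≠ a := by
      have hPpos : 0 < (univ.filter fun j => q j = a).card :=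
        Finset.card_pos.2 ⟨j0, by simp [ha]⟩
      rw [hPB] at hPpos
      obtain ⟨j', hj'⟩ := Finset.card_pos.1 hPpos
      exact ⟨j', (mem_filter.mp hj').2⟩
    right; right
    refine ⟨univ.filter fun i => q i.1 = a, fun j => if q j = a then 1 / S else S, fun j => ?_,
      fun i hi => ?_, fun i hi j hj => ?_, fun j hjU hjO => ?_, fun ε => ?_, fun i hiU hiO => ?_⟩
    · show 0 < if q j = a then 1 / S else S
      split_ifs
      · exact one_div_pos.2 hS0
      · exact hS0
    · show (if q i.1 = a then 1 / S else S) ≤ 1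
      rw [if_pos (mem_filter.mp hi).2, div_le_one hS0]
      exact hj0.le
    · have h3 : q i.1 = q j.1 := (mem_filter.mp hi).2.trans (mem_filter.mp hj).2.symm
      show decide (Odd (nd (xxk (q j.1) j.2.2.1) (vvk (q i.1) i.2.1))) = false
      rw [nd_xv', h3]
      by_cases h0 : q j.1 = 0
      · simp [h0]
      · simp [h0]
    · -- a further index of another class is linked
      have hja : q j.1 ≠ a := fun h => hjO (mem_filter.mpr ⟨mem_univ _, h⟩)
      by_contra hcon
      push Not at hcon
      apply hjU
      have hmem : bx j ∈ VV q U (q j.1) := by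
        refine perp (VV_orth q U hU hja.symm) (hcard j.1 hja) fun w hw => ?_
        obtain ⟨i, hi, rfl⟩ := mem_image.mp hw
        rw [mem_filter] at hi
        have h3 := hcon i hi.1 (mem_filter.mpr ⟨mem_univ _, hi.2⟩)
        rcases (link q i j).mp h3 with h4 | h4
        · exact absurd (h4.symm.trans hi.2) hja
        · exact h4
      have h5 := full q U hB (hAll j.1) hmem j.2.2.2
      exact h5
    · -- the twist
      obtain ⟨v, hv, hvne⟩ := twist (VV_orth q U hU (fun h => hj' h.symm) :
          ∀ v ∈ VV q U a, ∀ w ∈ VV q U (q j'), Even (bp v w)) (hcard j' hj') hWbig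
        (fun m => ∑ j ∈ U.filter fun j => ¬ q j.1 = a ∧ ε j = true, tz j.2.2.1 m)
      have hvU : (jn, v.1, v.2, (⟨0, hB⟩ : Fin B)) ∈ U :=
        full q U hB (hAll jn) (by rw [hjn]; exact hv) ⟨0, hB⟩
      refine ⟨_, hvU, mem_filter.mpr ⟨mem_univ _, hjn⟩, fun hcon => hvne ?_⟩
      set T := U.filter fun j => j ∉ (univ.filter fun i : Ij J k B => q i.1 = a) ∧
        Lj q (jn, v.1, v.2, (⟨0, hB⟩ : Fin B)) j = true ∧ ε j = true with hT
      -- the number of the linked indices
      have hL : ∀ j : Ij J k B, q j.1 ≠ a →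
          Lj q (jn, v.1, v.2, (⟨0, hB⟩ : Fin B)) j =
            decide (Odd (univ.filter fun m => (v.1 m && j.2.2.1 m) = true).card) := by
        intro j hj
        show decide (Odd (nd (xxk (q j.1) j.2.2.1) (vvk (q jn) v.1))) = _
        rw [nd_xv', hjn, if_neg (fun h => hj h.1.symm), if_neg (fun h => hj h.symm)]
      have hcast : ∀ m : ℕ, ((if Odd m then 1 else 0 : ℕ) : ZMod 2) = (m : ZMod 2) := by
        intro m
        by_cases h : Odd m
        · rw [if_pos h, Nat.cast_one]
          exact (ZMod.natCast_eq_one_iff_odd.2 h).symm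
        · rw [if_neg h, Nat.cast_zero]
          rw [Nat.not_odd_iff_even] at h
          exact (ZMod.natCast_eq_zero_iff_even.2 h).symm
      have hTc : (T.card : ZMod 2) =
          dz v.1 (fun m => ∑ j ∈ U.filter fun j => ¬ q j.1 = a ∧ ε j = true, tz j.2.2.1 m) := by
        have e1 : T = (U.filter fun j => ¬ q j.1 = a ∧ ε j = true).filter fun j =>
            Odd (univ.filter fun m => (v.1 m && j.2.2.1 m) = true).card := by
          rw [hT, Finset.filter_filter]
          apply Finset.filter_congr
          intro j _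
          simp only [mem_filter, mem_univ, true_and]
          constructor
          · rintro ⟨h1, h2, h3⟩
            rw [hL j h1, decide_eq_true_eq] at h2
            exact ⟨⟨h1, h3⟩, h2⟩
          · rintro ⟨⟨h1, h3⟩, h2⟩
            refine ⟨h1, ?_, h3⟩
            rw [hL j h1, decide_eq_true_eq]
            exact h2
        rw [e1, Finset.card_filter]
        push_cast
        have e2 : ∀ j ∈ U.filter (fun j => ¬ q j.1 = a ∧ ε j = true),
            (if Odd (univ.filter fun m => (v.1 m && j.2.2.1 m) = true).card then (1 : ZMod 2) else 0) =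
              dz v.1 (tz j.2.2.1) := by
          intro j _
          rw [← cast_card, ← hcast]
          push_cast
          rfl
        rw [Finset.sum_congr rfl e2]
        unfold dz
        rw [Finset.sum_comm]
        refine Finset.sum_congr rfl fun m _ => ?_
        split_ifs
        · rfl
        · simp
      rw [← hTc, ← cast_card]
      have hdp : dp v.1 v.2 =
          decide (Odd (univ.filter fun m => (v.1 m && v.2 m) = true).card) := by
        unfold dp
        simp only [Bool.and_eq_true]
      simp only [hns, Bool.true_and] at hcon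
      rw [hdp, decide_eq_decide] at hcon
      rw [← hcast T.card, ← hcast (univ.filter fun m => (v.1 m && v.2 m) = true).card]
      simp only [hcon]
    · -- the weights
      have hS1 : 1 / S ≤ 1 := by rw [div_le_one hS0]; exact hj0.le
      have hiq : q i.1 = a := (mem_filter.mp hiO).2
      have e1 : ∑ j ∈ U.erase i, (1 / 2 : ℝ) ^ k / B * (if q j.1 = a then 1 / S else S) =
          Fintype.card J - (1 / 2 : ℝ) ^ k / B * (1 / S) := by
        have h3 := Finset.add_sum_erase U
          (fun j : Ij J k B => (1 / 2 : ℝ) ^ k / B * (if q j.1 = a then 1 / S else S)) hiU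
        have h4 := hsum (fun j => if q j = a then 1 / S else S)
        have h5 : ∑ j, A U j * (if q j = a then 1 / S else S) = Fintype.card J := by
          have : ∀ j, A U j * (if q j = a then 1 / S else S) = 1 := by
            intro j
            rw [heq j]
            split_ifs <;> field_simp
          rw [Finset.sum_congr rfl fun j _ => this j]
          simp
        rw [h5] at h4
        rw [h4] at h3
        simp only [hiq, if_true] at h3
        linarith
      have e2 : ∑ j : J, psi δ (if q j = a then 1 / S else S) =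
          -(δ * Fintype.card J * Real.log S) := by
        have hlog : 0 ≤ Real.log S := Real.log_nonneg hj0.le
        have h3 : ∀ j : J, psi δ (if q j = a then 1 / S else S) =
            (if q j = a then -Real.log S else Real.log S) + -(δ * Real.log S) := by
          intro j
          split_ifs with hj
          · have := psi_inv (δ := δ) hS0
            rw [abs_of_nonneg hlog] at this
            linarith
          · have := psi_inv (δ := δ) (u := 1 / S) (one_div_pos.2 hS0)
            rw [one_div_one_div] at this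
            have h6 : Real.log (1 / S) = -Real.log S := by rw [one_div, Real.log_inv]
            rw [h6, abs_neg, abs_of_nonneg hlog] at this
            linarith
        rw [Finset.sum_congr rfl fun j _ => h3 j, Finset.sum_add_distrib, Finset.sum_ite,
          Finset.sum_const, Finset.sum_const, Finset.sum_const, Finset.card_univ, hPB]
        simp only [nsmul_eq_mul]
        ring
      simp only []
      rw [e1, e2]
      -- the inequality
      have hlogS : Real.log S ≤ S - 1 := Real.log_le_sub_one_of_pos hS0
      have hδ' : δ ≤ δ1 := hδ0.trans ((min_le_right _ _).trans (min_le_left _ _))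
      have hfin : δ * Fintype.card J * Real.log S < (1 / 2 : ℝ) ^ k / B * (1 / S) := by
        have h3 : δ * Fintype.card J * Real.log S ≤ δ1 * Fintype.card J * 2 ^ k := by
          have hlog : 0 ≤ Real.log S := Real.log_nonneg hj0.le
          apply mul_le_mul (mul_le_mul_of_nonneg_right hδ' hJR.le) _ hlog (by positivity)
          linarith
        have h4 : (1 / 2 : ℝ) ^ k / B * (1 / 2 ^ k) ≤ (1 / 2 : ℝ) ^ k / B * (1 / S) := by
          apply mul_le_mul_of_nonneg_left _ (by positivity)
          exact one_div_le_one_div_of_le hS0 hSle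
        have h5 : δ1 * Fintype.card J * 2 ^ k = (1 / 2) * ((1 / 2 : ℝ) ^ k / B * (1 / 2 ^ k)) := by
          rw [hδ1, one_div_pow]
          have h8 : (8 : ℝ) ^ k = 2 ^ k * 2 ^ k * 2 ^ k := by
            rw [← mul_pow, ← mul_pow]; norm_num
          rw [h8]
          field_simp
        have h6 : 0 < (1 / 2 : ℝ) ^ k / B * (1 / 2 ^ k) := by positivity
        linarith
      linarith

end Pool.Agent.L0h71.TV
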